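import Pool.Agent.TH663.SGE.Main

/-!
# Simultaneous geometric embedding of two graphs is `∃ℝ`-complete

The hardness proof reduces from the satisfiability of ordered straight-line programs: sequences of
real values whose total order is prescribed, with relations `v_k + v_l = v_i + v_j` and
`(v_k - v_o) (v_l - v_o) = (v_i - v_o) (v_j - v_o)`. The first graph is a fan with apex `O`
over a path, in a triangle (two copies, so that at least one of them is not turned inside out);
it prescribes the order of the lines through `O`, which stand for the values, and, by a few chords,
the orientation of triples of consecutive vertices of the path. The second graph consists of
small triangulations, one or two for each relation. The chords and the triangulation together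
force inequalities of cross ratios, and the two triangulations of a relation give the two
inequalities `<` and `>` between values which can be chosen arbitrarily close to the given ones.
-/

namespace Pool.Agent.Results.MP_a04002_lc.SgeTwoComplete

open Pool.Agent.NPC Pool.Agent.NPC.ER Pool.Agent.NPC.ER.SGE

/-- Simultaneous geometric embedding of two graphs is `∃ℝ`-complete under polynomial-time
many-one reductions. -/
theorem result : ERComplete (lang fun G : Inst => IsInst G ∧ HasSGE G) := sge_complete

end Pool.Agent.Results.MP_a04002_lc.SgeTwoComplete
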